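import Mathlib
import Pool.Agent.FourExp.G.MainPoly

set_option autoImplicit false

namespace Pool.Agent.Results.MP_bbc1fa_nt.AlgIndepNearOne

open Finsupp Filter Topology Pool.Agent.FourExp.G

/-- A real vector satisfying all multiplicative relations of `g` is the image of the vector of
logarithms under a rational linear map. -/
lemma exists_linear {r : ℕ} (g : Fin r → ℚ) (hg : ∀ k, 0 < g k) (x : Fin r → ℝ)
    (hx : ∀ n : Fin r → ℤ, ∏ k, g k ^ n k = 1 → ∑ k, (n k : ℝ) * x k = 0) :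
    ∃ θ : ℝ →ₗ[ℚ] ℝ, ∀ k, θ (Real.log (g k)) = x k := by
  let A : (Fin r → ℚ) →ₗ[ℚ] ℝ := Fintype.linearCombination ℚ (fun k => Real.log (g k))
  let B : (Fin r → ℚ) →ₗ[ℚ] ℝ := Fintype.linearCombination ℚ x
  have hA : ∀ c, A c = ∑ k, (c k : ℝ) * Real.log (g k) := by
    intro c
    simp only [A, Fintype.linearCombination_apply, Rat.smul_def]
  have hB : ∀ c, B c = ∑ k, (c k : ℝ) * x k := by
    intro c
    simp only [B, Fintype.linearCombination_apply, Rat.smul_def]
  have hg0 : ∀ k, (g k : ℝ) ≠ 0 := fun k => by exact_mod_cast (hg k).ne'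
  have hker : LinearMap.ker A ≤ LinearMap.ker B := by
    intro c hc
    rw [LinearMap.mem_ker, hA] at hc
    rw [LinearMap.mem_ker, hB]
    obtain ⟨T, e, hT, he⟩ := Pool.Agent.FourExp.exists_int_scale c
    have he' : ∀ i, (e i : ℝ) = (T : ℝ) * (c i : ℝ) := fun i => by
      exact_mod_cast congrArg (Rat.cast (K := ℝ)) (he i)
    have hT' : (T : ℝ) ≠ 0 := by exact_mod_cast hT
    have h1 : ∑ k, (e k : ℝ) * Real.log (g k) = 0 := by
      simp only [he', mul_assoc]
      rw [← Finset.mul_sum, hc, mul_zero]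
    have h2 : ∏ k, g k ^ e k = 1 := by
      have h3 : Real.log ((∏ k, g k ^ e k : ℚ) : ℝ) = 0 := by
        push_cast
        rw [Real.log_prod (fun k _ => zpow_ne_zero _ (hg0 k)), ← h1]
        apply Finset.sum_congr rfl
        intro k _
        rw [Real.log_zpow]
      have h4 : (0:ℝ) < ((∏ k, g k ^ e k : ℚ) : ℝ) := by
        exact_mod_cast Finset.prod_pos (fun k _ => zpow_pos (hg k) _)
      have h5 := Real.eq_one_of_pos_of_log_eq_zero h4 h3
      exact_mod_cast h5
    have h6 := hx e h2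
    simp only [he', mul_assoc] at h6
    rw [← Finset.mul_sum] at h6
    exact (mul_eq_zero.mp h6).resolve_left hT'
  let A' : ((Fin r → ℚ) ⧸ LinearMap.ker A) →ₗ[ℚ] ℝ := (LinearMap.ker A).liftQ A le_rfl
  have hA' : LinearMap.ker A' = ⊥ := Submodule.ker_liftQ_eq_bot _ _ _ le_rfl
  obtain ⟨p, hp⟩ := A'.exists_leftInverse_of_injective hA'
  refine ⟨((LinearMap.ker A).liftQ B hker).comp p, fun k => ?_⟩
  have h1 : Real.log (g k) = A' ((LinearMap.ker A).mkQ (Pi.single k 1)) := by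
    change _ = A (Pi.single k 1)
    rw [hA, Finset.sum_eq_single k]
    · simp
    · intro i _ hi
      simp [hi]
    · intro h; exact absurd (Finset.mem_univ _) h
  have h2 : p (A' ((LinearMap.ker A).mkQ (Pi.single k 1))) =
      (LinearMap.ker A).mkQ (Pi.single k 1) := by
    have := congrArg (fun f => f ((LinearMap.ker A).mkQ (Pi.single k 1))) hp
    exact this
  rw [LinearMap.comp_apply, h1, h2]
  change B (Pi.single k 1) = x k
  rw [hB, Finset.sum_eq_single k]
  · simp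
  · intro i _ hi
    simp [hi]
  · intro h; exact absurd (Finset.mem_univ _) h

theorem result (r d : ℕ) (δ A : ℝ) (hδ : 0 < δ) :
    ∃ C H₀ : ℝ, ∀ H : ℝ, H₀ ≤ H → ∀ (g : Fin r → ℚ) (F : MvPolynomial (Fin r) ℤ),
      (∀ k, 0 < g k) →
      (∀ k, ((g k).den : ℝ) ≤ H) →
      (∀ k, |(g k : ℝ) - 1| ≤ H ^ (-δ)) →
      F.totalDegree ≤ d →
      (∀ α, |((MvPolynomial.coeff α F : ℤ) : ℝ)| ≤ H ^ A) →
      |MvPolynomial.aeval (fun k => Real.log (g k)) F| < H ^ (-C) →
      ∀ x : Fin r → ℝ,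
        (∀ n : Fin r → ℤ, ∏ k, g k ^ n k = 1 → ∑ k, (n k : ℝ) * x k = 0) →
        MvPolynomial.aeval x F = 0 := by
  by_contra hcon
  push Not at hcon
  set B : ℝ := max A 0 with hB
  have hB0 : 0 ≤ B := le_max_right _ _
  have hseq : ∀ n : ℕ, ∃ H : ℝ, ((n:ℝ) + 2) ^ (1 / δ) + 2 ≤ H ∧
      ∃ (g : Fin r → ℚ) (F : MvPolynomial (Fin r) ℤ) (x : Fin r → ℝ),
      (∀ k, 0 < g k) ∧
      (∀ k, ((g k).den : ℝ) ≤ H) ∧
      (∀ k, |(g k : ℝ) - 1| ≤ H ^ (-δ)) ∧
      F.totalDegree ≤ d ∧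
      (∀ α, |((MvPolynomial.coeff α F : ℤ) : ℝ)| ≤ H ^ A) ∧
      |MvPolynomial.aeval (fun k => Real.log (g k)) F| < H ^ (-(n:ℝ)) ∧
      (∀ n : Fin r → ℤ, ∏ k, g k ^ n k = 1 → ∑ k, (n k : ℝ) * x k = 0) ∧
      MvPolynomial.aeval x F ≠ 0 := by
    intro n
    obtain ⟨H, hH, g, F, h1, h2, h3, h4, h5, h6, x, h7, h8⟩ :=
      hcon (n:ℝ) (((n:ℝ) + 2) ^ (1 / δ) + 2)
    exact ⟨H, hH, g, F, x, h1, h2, h3, h4, h5, h6, h7, h8⟩
  choose H hH g F x hpos hden hclose hdeg hcoef hval hrel hne using hseq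
  have hH2 : ∀ n, 2 ≤ H n := by
    intro n
    have : (0:ℝ) ≤ ((n:ℝ) + 2) ^ (1 / δ) := by positivity
    linarith [hH n]
  have hH1 : ∀ n, 1 ≤ H n := fun n => by linarith [hH2 n]
  have hHpos : ∀ n, 0 < H n := fun n => by linarith [hH2 n]
  have hεle : ∀ n, H n ^ (-δ) ≤ 1 / ((n:ℝ) + 2) := by
    intro n
    have h1 : ((n:ℝ) + 2) ≤ H n ^ δ := by
      have h2 : (((n:ℝ) + 2) ^ (1 / δ)) ^ δ ≤ H n ^ δ := by
        apply Real.rpow_le_rpow (by positivity) (by linarith [hH n]) hδ.le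
      rwa [← Real.rpow_mul (by positivity), one_div_mul_cancel hδ.ne', Real.rpow_one] at h2
    rw [Real.rpow_neg (hHpos n).le, one_div]
    exact inv_anti₀ (by positivity) h1
  have hcoefB : ∀ n α, |((MvPolynomial.coeff α (F n) : ℤ) : ℝ)| ≤ H n ^ B := fun n α =>
    (hcoef n α).trans (Real.rpow_le_rpow_of_exponent_le (hH1 n) (le_max_left _ _))
  -- the scaling denominators
  let N : ℕ → ℕ := fun n => ⌈H n ^ (B + δ)⌉₊
  have hN1 : ∀ n, H n ^ (B + δ) ≤ N n := fun n => Nat.le_ceil _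
  have hHB1 : ∀ n, 1 ≤ H n ^ (B + δ) := fun n =>
    Real.one_le_rpow (hH1 n) (by linarith)
  have hNpos : ∀ n, (0:ℝ) < N n := fun n => lt_of_lt_of_le one_pos ((hHB1 n).trans (hN1 n))
  have hN2 : ∀ n, (N n : ℝ) ≤ H n ^ (B + δ + 1) := by
    intro n
    have h1 : (N n : ℝ) < H n ^ (B + δ) + 1 := Nat.ceil_lt_add_one (by linarith [hHB1 n])
    have h2 : H n ^ (B + δ + 1) = H n ^ (B + δ) * H n := by
      rw [Real.rpow_add (hHpos n), Real.rpow_one]
    rw [h2]
    nlinarith [hHB1 n, hH2 n]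
  obtain ⟨Λ, hΛ⟩ := exists_nat_ge ((B + δ + 1) / δ)
  -- the variables
  let ι := Fin r ⊕ (Fin r → Fin (d + 1))
  let σ : ι ≃ Fin (Fintype.card ι) := Fintype.equivFin ι
  let Z : ℕ → ι → ℚ := fun n => Sum.elim (fun k => g n k - 1)
    (fun γ => ((MvPolynomial.coeff (toFs γ) (F n) : ℤ) : ℚ) / N n)
  have hZle : ∀ n i, |(Z n i : ℝ)| ≤ H n ^ (-δ) := by
    intro n i
    rcases i with k | γ
    · simp only [Z, Sum.elim_inl]
      push_cast
      exact hclose n k
    · simp only [Z, Sum.elim_inr]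
      push_cast
      rw [abs_div, abs_of_pos (hNpos n), div_le_iff₀ (hNpos n)]
      refine (hcoefB n _).trans ?_
      have h1 : H n ^ B = H n ^ (-δ) * H n ^ (B + δ) := by
        rw [← Real.rpow_add (hHpos n)]
        congr 1
        ring
      rw [h1]
      exact mul_le_mul_of_nonneg_left (hN1 n) (Real.rpow_nonneg (hHpos n).le _)
  have hZden : ∀ n i, ((Z n i).den : ℝ) ≤ H n ^ (B + δ + 1) := by
    intro n i
    rcases i with k | γ
    · simp only [Z, Sum.elim_inl]
      have h2 := Rat.sub_den_dvd (g n k) 1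
      rw [Rat.den_one, mul_one] at h2
      have h3 := Nat.le_of_dvd (Rat.den_pos _) h2
      have h4 : (((g n k - 1).den : ℕ) : ℝ) ≤ H n := le_trans (by exact_mod_cast h3) (hden n k)
      refine h4.trans ?_
      conv_lhs => rw [← Real.rpow_one (H n)]
      exact Real.rpow_le_rpow_of_exponent_le (hH1 n) (by linarith)
    · simp only [Z, Sum.elim_inr]
      have hN0 : (N n) ≠ 0 := by
        intro h
        have := hNpos n
        rw [h] at this
        simp at this
      have h2 : ((((MvPolynomial.coeff (toFs γ) (F n) : ℤ) : ℚ) / (N n : ℚ)).den) ∣ N n := by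
        have h3 := Rat.den_dvd (MvPolynomial.coeff (toFs γ) (F n)) (N n : ℤ)
        rw [Rat.divInt_eq_div] at h3
        push_cast at h3
        exact_mod_cast h3
      have h3 := Nat.le_of_dvd (Nat.pos_of_ne_zero hN0) h2
      exact le_trans (by exact_mod_cast h3) (hN2 n)
  let P : Pts (Fintype.card ι) :=
    { z := fun n i => Z n (σ.symm i)
      ε := fun n => H n ^ (-δ)
      Λ := Λ
      ε_pos := fun n => Real.rpow_pos_of_pos (hHpos n) _
      ε_le := fun n => (hεle n).trans (by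
        apply one_div_le_one_div_of_le two_pos
        have : (0:ℝ) ≤ n := Nat.cast_nonneg n
        linarith)
      lim := by
        apply squeeze_zero (fun n => (Real.rpow_pos_of_pos (hHpos n) _).le) hεle
        have h1 := tendsto_one_div_add_atTop_nhds_zero_nat (𝕜 := ℝ)
        have h2 := h1.comp (tendsto_add_atTop_nat 1)
        refine h2.congr (fun n => ?_)
        simp only [Function.comp]
        push_cast
        ring
      z_le := fun n i => hZle n _
      den_le := fun n i => by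
        have h4 : (H n ^ (-δ)) ^ Λ = H n ^ (-δ * Λ) := by
          rw [Real.rpow_mul (hHpos n).le, Real.rpow_natCast]
        have h5 : H n ^ (B + δ + 1) * H n ^ (-δ * Λ) ≤ 1 := by
          rw [← Real.rpow_add (hHpos n)]
          apply Real.rpow_le_one_of_one_le_of_nonpos (hH1 n)
          rw [div_le_iff₀ hδ] at hΛ
          nlinarith
        rw [h4]
        exact (mul_le_mul_of_nonneg_right (hZden n _)
          (Real.rpow_nonneg (hHpos n).le _)).trans h5 }
  -- the generic polynomial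
  let G : MvPolynomial (Fin (Fintype.card ι)) (MvPolynomial (Fin (Fintype.card ι)) ℚ) :=
    ∑ γ : Fin r → Fin (d + 1), MvPolynomial.C (MvPolynomial.X (σ (Sum.inr γ))) *
      ∏ k, MvPolynomial.X (σ (Sum.inl k)) ^ (γ k : ℕ)
  have hG : ∀ (n : ℕ) (y : Fin (Fintype.card ι) → ℝ),
      MvPolynomial.eval₂ (evR (P.z n)) y G =
        (1 / (N n : ℝ)) * MvPolynomial.aeval (fun k => y (σ (Sum.inl k))) (F n) := by
    intro n y
    rw [aeval_eq_sum (F n) (hdeg n), Finset.mul_sum]
    simp only [G]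
    rw [MvPolynomial.eval₂_sum]
    apply Finset.sum_congr rfl
    intro γ _
    rw [MvPolynomial.eval₂_mul, MvPolynomial.eval₂_C, evR_eq, ev, MvPolynomial.eval_X,
      MvPolynomial.eval₂_prod]
    simp only [MvPolynomial.eval₂_pow, MvPolynomial.eval₂_X, P, Z, Equiv.symm_apply_apply,
      Sum.elim_inr]
    push_cast
    ring
  have hsmall : ∀ T : ℕ, ∀ᶠ n in Pts.U,
      |MvPolynomial.eval₂ (evR (P.z n)) (fun i => Real.log (1 + (P.z n i : ℝ))) G| ≤
        P.ε n ^ T := by
    intro T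
    obtain ⟨n₀, hn₀⟩ := exists_nat_ge (δ * T)
    have hev : ∀ᶠ n in (Pts.U : Filter ℕ), n₀ ≤ n :=
      (eventually_ge_atTop n₀).filter_mono Nat.hyperfilter_le_atTop
    filter_upwards [hev] with n hn
    have h8 := hval n
    have h9 : H n ^ (-(n:ℝ)) ≤ (P.ε n) ^ T := by
      change _ ≤ (H n ^ (-δ)) ^ T
      rw [← Real.rpow_natCast, ← Real.rpow_mul (hHpos n).le]
      apply Real.rpow_le_rpow_of_exponent_le (hH1 n)
      have : (n₀:ℝ) ≤ n := by exact_mod_cast hn
      linarith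
    refine le_trans ?_ (h8.le.trans h9)
    rw [hG n]
    have h10 : (fun k => Real.log (1 + (P.z n (σ (Sum.inl k)) : ℝ))) =
        fun k => Real.log (g n k : ℝ) := by
      funext k
      simp only [P, Z, Equiv.symm_apply_apply, Sum.elim_inl]
      push_cast
      congr 1
      ring
    rw [h10, abs_mul, abs_of_nonneg (by positivity)]
    have h11 : 1 / (N n : ℝ) ≤ 1 := by
      rw [div_le_one (hNpos n)]
      exact (hHB1 n).trans (hN1 n)
    exact mul_le_of_le_one_left (abs_nonneg _) h11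
  obtain ⟨n, Q, hQ1, hQ2⟩ := (P.pts_poly G hsmall).exists
  -- extend `x` by the coefficients' logarithms
  have hz0 : ∀ k, (P.z n (σ (Sum.inl k)) : ℝ) = (g n k : ℝ) - 1 := by
    intro k
    simp only [P, Z, Equiv.symm_apply_apply, Sum.elim_inl]
    push_cast
    rfl
  obtain ⟨θ, hθ⟩ := exists_linear (fun k => g n k) (hpos n) (x n) (hrel n)
  have h12 := hQ2 (fun i => θ (Real.log (1 + (P.z n i : ℝ)))) (by
    intro k
    conv_lhs => rw [hQ1 k]
    rw [map_sum]
    apply Finset.sum_congr rfl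
    intro i _
    rw [← Rat.smul_def, map_smul, Rat.smul_def])
  rw [hG n] at h12
  have h13 : (fun k => θ (Real.log (1 + (P.z n (σ (Sum.inl k)) : ℝ)))) = x n := by
    funext k
    rw [hz0, add_sub_cancel, hθ]
  rw [h13] at h12
  exact hne n ((mul_eq_zero.mp h12).resolve_left (by have := hNpos n; positivity))

end Pool.Agent.Results.MP_bbc1fa_nt.AlgIndepNearOne
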