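import Mathlib
import Pool.Agent.ExScale.Window

set_option autoImplicit false

namespace Pool.Agent.Results.MP_bbc1fa_nt.ExceptionalWindow

theorem result (r : ℕ) (δ A : ℝ) (hδ : 0 < δ) :
    ∃ κ : ℝ, ∀ B : ℝ, ∃ C H₀ : ℝ, ∀ H H' ℓ : ℝ, H₀ ≤ H → H ≤ H' → H' ≤ H ^ B →
      ∀ (g g' : Fin r → ℚ),
      (∀ k, 0 < g k) → (∀ k, ((g k).den : ℝ) ≤ H) → (∀ k, |(g k : ℝ) - 1| ≤ H ^ (-δ)) →
      (∀ k, 0 < g' k) → (∀ k, ((g' k).den : ℝ) ≤ H') → (∀ k, |(g' k : ℝ) - 1| ≤ H' ^ (-δ)) →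
      ∀ (c c' : Fin 2 → Fin 2 → ℤ) (m m' : Fin 2 → Fin 2 → Fin r → ℤ)
        (M M' : Matrix (Fin 2) (Fin 2) ℝ),
      (∀ i j, |(c i j : ℝ)| ≤ H ^ A) → (∀ i j k, |(m i j k : ℝ)| ≤ H ^ A) →
      (∀ i j, |(c' i j : ℝ)| ≤ H' ^ A) → (∀ i j k, |(m' i j k : ℝ)| ≤ H' ^ A) →
      (∀ i j, M i j = (c i j : ℝ) * ℓ + ∑ k, (m i j k : ℝ) * Real.log (g k)) →
      (∀ i j, M' i j = (c' i j : ℝ) * ℓ + ∑ k, (m' i j k : ℝ) * Real.log (g' k)) →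
      LinearIndependent ℚ (fun i : Fin 2 => fun j : Fin 2 => M i j) →
      LinearIndependent ℚ (fun j : Fin 2 => fun i : Fin 2 => M i j) →
      LinearIndependent ℚ (fun i : Fin 2 => fun j : Fin 2 => M' i j) →
      LinearIndependent ℚ (fun j : Fin 2 => fun i : Fin 2 => M' i j) →
      M.det * M'.det = 0 →
      H' ^ (-C) ≤ |M.det| + |M'.det| ∨
      H' < H ^ κ ∧ ∃ P Q : Matrix (Fin 2) (Fin 2) ℚ, P.det ≠ 0 ∧ Q.det ≠ 0 ∧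
        (M' = P.map (fun x : ℚ => (x : ℝ)) * M * Q.map (fun x : ℚ => (x : ℝ)) ∨
          M' = P.map (fun x : ℚ => (x : ℝ)) * M.transpose * Q.map (fun x : ℚ => (x : ℝ))) :=
  Pool.Agent.ExScale.window r δ A hδ

end Pool.Agent.Results.MP_bbc1fa_nt.ExceptionalWindow
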