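import Mathlib
import Pool.Agent.ExScale.ManyScales
import Pool.Agent.ExApx.ManyR

set_option autoImplicit false

namespace Pool.Agent.Results.MP_bbc1fa_nt.ManyBases

open Pool.Agent.OneClass Pool.Agent.ExScale Pool.Agent.ExApx

/-- Independence over `ℚ` of the two rows, in coordinates. -/
lemma rowsIndep_of (M : Matrix (Fin 2) (Fin 2) ℝ)
    (h : LinearIndependent ℚ (fun i : Fin 2 => fun j : Fin 2 => M i j)) : RowsIndep M := by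
  intro u v huv
  rw [Fintype.linearIndependent_iff] at h
  have h1 := h ![u, v] (by
    funext j
    simp only [Fin.sum_univ_two, Pi.add_apply, Pi.smul_apply, Matrix.cons_val_zero,
      Matrix.cons_val_one, Rat.smul_def, Pi.zero_apply]
    exact huv j)
  exact ⟨h1 0, h1 1⟩

theorem result (t r : ℕ) (δ : ℝ) (hδ : 0 < δ) :
    ∃ κ : ℝ, ∀ A B : ℝ, ∃ E : ℝ, ∀ D : ℝ, ∃ C H₀ : ℝ,
      ∀ (ℓ : Fin t → ℝ) (H : Fin (t + 1) → ℝ)
      (g : Fin (t + 1) → Fin r → ℚ) (c : Fin (t + 1) → Fin 2 → Fin 2 → Fin t → ℤ)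
      (m : Fin (t + 1) → Fin 2 → Fin 2 → Fin r → ℤ) (M : Fin (t + 1) → Matrix (Fin 2) (Fin 2) ℝ)
      (u : Fin (t + 1) → Fin 2 → Fin 2 → ℝ),
      (∀ i, H₀ ≤ H i) → (∀ i j, H i ≤ H j ^ B) →
      (∀ i k, 0 < g i k) → (∀ i k, ((g i k).den : ℝ) ≤ H i) →
      (∀ i k, |(g i k : ℝ) - 1| ≤ H i ^ (-δ)) →
      (∀ i a b s, |(c i a b s : ℝ)| ≤ H i ^ A) → (∀ i a b k, |(m i a b k : ℝ)| ≤ H i ^ A) →
      (∀ i a b, u i a b = ∑ k, (m i a b k : ℝ) * Real.log (g i k)) →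
      (∀ i a b, M i a b = ∑ s, (c i a b s : ℝ) * ℓ s + u i a b) →
      (∀ i, LinearIndependent ℚ (fun a : Fin 2 => fun b : Fin 2 => M i a b)) →
      (∀ i, LinearIndependent ℚ (fun b : Fin 2 => fun a : Fin 2 => M i a b)) →
      (∀ i, ∃ a b, u i a b ≠ 0) →
      ((∀ i, (M i).det = 0) ∨
        ((∀ i, |(M i).det| < H i ^ (-C)) ∧ (∀ i s, |ℓ s| ≤ H i ^ D) ∧
          ¬ ∃ k : Fin t → ℤ, ∑ s, (k s : ℝ) * ℓ s ≠ 0 ∧
            ∀ i, (∀ s, |(k s : ℝ)| ≤ H i ^ E) ∧ |∑ s, (k s : ℝ) * ℓ s| < H i ^ (-D))) →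
      (∃ n : Fin (t + 1) → Fin 2 → Fin 2 → ℤ,
        ∑ i, ∑ a, ∑ b, (n i a b : ℝ) * u i a b = 0 ∧
        ∃ i, ∑ a, ∑ b, (n i a b : ℝ) * u i a b ≠ 0) ∧
      ∃ i j, i ≠ j ∧ H i ≤ H j ∧ H j < H i ^ κ := by
  obtain ⟨κ₁, hκ₁⟩ := many t r δ hδ
  obtain ⟨κ₂, hκ₂⟩ := many_approx t r δ hδ
  refine ⟨max κ₁ κ₂, fun A B => ?_⟩
  obtain ⟨H₁, hH₁⟩ := hκ₁ A B
  obtain ⟨E, hE⟩ := hκ₂ A B
  refine ⟨E, fun D => ?_⟩
  obtain ⟨C, H₂, hH₂⟩ := hE D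
  refine ⟨C, max (max H₁ H₂) 1,
    fun ℓ H g c m M u hH hB hg hden hclose hc hm hu hM hrow hcol hne hdet => ?_⟩
  have hu' : u = fun i a b => ∑ k, (m i a b k : ℝ) * Real.log (g i k) := by
    funext i a b
    exact hu i a b
  subst hu'
  have h1 : ∀ i, H₁ ≤ H i := fun i => ((le_max_left _ _).trans (le_max_left _ _)).trans (hH i)
  have h2 : ∀ i, H₂ ≤ H i := fun i => ((le_max_right _ _).trans (le_max_left _ _)).trans (hH i)
  have h3 : ∀ i, 1 ≤ H i := fun i => (le_max_right _ _).trans (hH i)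
  rcases hdet with hdet | ⟨hdet, hℓ, hlin⟩
  · obtain ⟨h4, i, j, h5, h6, h7⟩ := hH₁ ℓ H g c m M h1 hB hg hden hclose hc hm hM
      (fun i => rowsIndep_of _ (hrow i)) (fun i => rowsIndep_of (M i).transpose (hcol i)) hdet hne
    exact ⟨h4, i, j, h5, h6, h7.trans_le
      (Real.rpow_le_rpow_of_exponent_le (h3 i) (le_max_left _ _))⟩
  · obtain ⟨h4, i, j, h5, h6, h7⟩ := hH₂ ℓ H g c m M h2 hB hg hden hclose hℓ hc hm hM
      (fun i => rowsIndep_of _ (hrow i)) (fun i => rowsIndep_of (M i).transpose (hcol i)) hdet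
      hlin hne
    exact ⟨h4, i, j, h5, h6, h7.trans_le
      (Real.rpow_le_rpow_of_exponent_le (h3 i) (le_max_right _ _))⟩

end Pool.Agent.Results.MP_bbc1fa_nt.ManyBases
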